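import Mathlib
import Pool.Agent.TH497.PW.IntFlow
import Pool.Agent.TH362.FP.Pos
import Pool.Agent.Helper335.Rel.Main
import Pool.Agent.Q287.FL.Tree

set_option autoImplicit false

/-!
# No minor is the binary tree with 126 vertices (MP_974d84_co)

Let `D` be the tree with 126 vertices in which all vertices have degree three, except the 64 leaves,
and all leaves have distance five from the central edge.  Every bridgeless multigraph without a
minor isomorphic to `D` has a nowhere-zero 5-flow, and the characteristic polynomial of its bond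
matroid is positive at all integers `q ≥ 5`.  Since the star `K_(1,64)` is a minor of `D`, this
holds in particular for all bridgeless multigraphs without a minor `K_(1,64)`.  The degrees, the
connectivity and the order are arbitrary.

The theorem is proved in a stronger form: let `C_1, ..., C_m` be cycles of `G`, each with at most
eleven edges outside the union `F` of the earlier ones (`F` = union of all); then it is enough that
`G / F` has no minor `D`.

Proof.  The class is closed under contractions, so a minimal counterexample has girth at least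
twelve and all degrees at least three (apart from isolated vertices; libraries `Y335/FL` and
`Y358/IN`).  In such a graph the walks without reversals of length at most five which begin with a
fixed edge, in one of its two directions, and take one of two fixed further edges at each step form
a subgraph `D`.  The incidence graph of the smallest generalized hexagon with more than two points
per line (Tutte's 12-cage) has 126 vertices, so `D` is a spanning tree of it and the method cannot
give a larger tree.
-/

namespace Pool.Agent.Results.MP_974d84_co.BinaryTreeMinor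

variable {V E W : Type}

/-- The edges with exactly one end in `Y`. -/
def boundary [DecidableEq V] [Fintype E] (src dst : E → V) (Y : Finset V) : Finset E :=
  Finset.univ.filter (fun e => ¬ (src e ∈ Y ↔ dst e ∈ Y))

/-- Kirchhoff's law. -/
def IsFlow [DecidableEq V] [Fintype E] (src dst : E → V) (f : E → ℤ) : Prop :=
  ∀ v : V, ∑ e ∈ Finset.univ.filter (fun e => src e = v), f e
    = ∑ e ∈ Finset.univ.filter (fun e => dst e = v), f e

/-- `C` is a cycle: the support of an integer flow with the values `0`, `1` and `-1`. -/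
def IsCycle [DecidableEq V] [Fintype E] (src dst : E → V) (C : Finset E) : Prop :=
  ∃ z : E → ℤ, IsFlow src dst z ∧ (∀ e, z e = 0 ∨ z e = 1 ∨ z e = -1) ∧ ∀ e, z e ≠ 0 ↔ e ∈ C

/-- The map `r` identifies only vertices which are joined by a path with edges in `F`; if `r` is
the map to the components of the graph `(V, F)` then `r ∘ src`, `r ∘ dst` is the graph `G / F` (with
the edges in `F` as loops). -/
def JoinedIn (src dst : E → V) (F : Finset E) (r : V → W) : Prop :=
  ∀ x y, r x = r y → (SimpleGraph.fromRel
    (fun u v : V => ∃ e ∈ F, src e = u ∧ dst e = v)).Reachable x y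

/-- The number of the connected components of the graph with the vertices `V` and the edges `A`. -/
noncomputable def components (src dst : E → V) (A : Finset E) : ℕ :=
  Nat.card (SimpleGraph.fromRel
    (fun u v : V => ∃ e ∈ A, src e = u ∧ dst e = v)).ConnectedComponent

/-- The rank of `A` in the cycle matroid of the graph. -/
noncomputable def cycleRank [Fintype V] (src dst : E → V) (A : Finset E) : ℕ :=
  Fintype.card V - components src dst A

/-- The rank of `A` in the bond matroid of the graph, the dual of the cycle matroid: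
`|A| + r(E \ A) - r(E)`. -/
noncomputable def bondRank [Fintype V] [Fintype E] [DecidableEq E] (src dst : E → V)
    (A : Finset E) : ℕ :=
  A.card + cycleRank src dst Aᶜ - cycleRank src dst Finset.univ

/-- The characteristic polynomial of the bond matroid at the integer `x`,
`∑ (-1)^|A| x^(r*(E) - r*(A))`. -/
noncomputable def bondCharPoly [Fintype V] [Fintype E] [DecidableEq E] (src dst : E → V)
    (x : ℤ) : ℤ :=
  ∑ A : Finset E, (-1) ^ A.card * x ^ (bondRank src dst Finset.univ - bondRank src dst A)

theorem isFlow_iff [DecidableEq V] [Fintype E] (src dst : E → V) (f : E → ℤ) :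
    IsFlow src dst f ↔
      ∀ v, ∑ e, f e * ((if src e = v then 1 else 0) - (if dst e = v then 1 else 0)) = 0 := by
  unfold IsFlow
  refine forall_congr' fun v => ?_
  rw [Finset.sum_filter, Finset.sum_filter, ← sub_eq_zero, ← Finset.sum_sub_distrib]
  have : ∀ e, (if src e = v then f e else 0) - (if dst e = v then f e else 0)
      = f e * ((if src e = v then 1 else 0) - (if dst e = v then 1 else 0)) := by
    intro e
    by_cases h1 : src e = v <;> by_cases h2 : dst e = v <;> simp [h1, h2]
  rw [Finset.sum_congr rfl (fun e _ => this e)]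

theorem nzf [Fintype V] [DecidableEq V] [Fintype E] [DecidableEq E] (src dst : E → V)
    (h : Pool.Agent.TH676.Z.FlowOn src dst ∅ ∅) : Pool.Agent.TH497.PW.NZF src dst := by
  obtain ⟨f, h1, _, h3⟩ := h
  refine ⟨f, fun e => h3 e (Finset.notMem_empty _) (Finset.notMem_empty _), fun x => ?_⟩
  rw [← h1 x]
  unfold Pool.Agent.TH676.Z.bd
  refine Finset.sum_congr rfl fun e _ => ?_
  unfold Pool.Agent.TH497.PW.ic
  by_cases h4 : src e = x <;> by_cases h5 : dst e = x <;> simp [h4, h5]

/-- the reduction modulo five of a flow with values in `{0, 1, -1}` -/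
theorem mod5 [Fintype V] [DecidableEq V] [Fintype E] [DecidableEq E] (src dst : E → V)
    (C : Finset E) (h : IsCycle src dst C) :
    ∃ z : E → ZMod 5, (∀ v, Pool.Agent.TH676.Z.bd src dst z v = 0) ∧
      (∀ e, z e = 0 ∨ z e = 1 ∨ z e = -1) ∧ ∀ e, z e ≠ 0 ↔ e ∈ C := by
  obtain ⟨z, h1, h2, h3⟩ := h
  refine ⟨fun e => ((z e : ℤ) : ZMod 5), fun v => ?_, fun e => ?_, fun e => ?_⟩
  · have h4 := h1 v
    rw [Finset.sum_filter, Finset.sum_filter, ← sub_eq_zero, ← Finset.sum_sub_distrib] at h4
    have h5 := congrArg (fun t : ℤ => (t : ZMod 5)) h4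
    simp only [Int.cast_sum, Int.cast_sub, Int.cast_zero] at h5
    refine Eq.trans ?_ h5
    unfold Pool.Agent.TH676.Z.bd
    rw [Finset.sum_sub_distrib, Finset.sum_sub_distrib]
    congr 1 <;>
    · refine Finset.sum_congr rfl fun e _ => ?_
      split_ifs <;> simp
  · rcases h2 e with h | h | h <;> simp [h]
  · rw [← h3 e]
    have h10 : (1 : ZMod 5) ≠ 0 := by decide
    rcases h2 e with h | h | h <;> simp [h, h10]

theorem finish [Fintype V] [DecidableEq V] [Fintype E] [DecidableEq E] (src dst : E → V)
    (h : Pool.Agent.TH676.Z.FlowOn src dst ∅ ∅) :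
    (∃ f : E → ℤ, IsFlow src dst f ∧ ∀ e, 1 ≤ |f e| ∧ |f e| ≤ 4) ∧
      ∀ q : ℕ, 5 ≤ q → 0 < bondCharPoly src dst q := by
  obtain ⟨F, hF, hF0⟩ := Pool.Agent.TH497.PW.int_flow src dst (nzf src dst h)
  have hF1 := (isFlow_iff src dst F).mpr hF0
  exact ⟨⟨F, hF1, hF⟩, fun q hq => Pool.Agent.TH362.FP.chr_pos src dst F hF hF1 q hq⟩

/-- `X` is not empty and connected: every nonempty proper subset `Z` is joined to `X \ Z`. -/
def Connected [DecidableEq V] (src dst : E → V) (X : Finset V) : Prop :=
  X.Nonempty ∧ ∀ Z ⊆ X, Z.Nonempty → Z ≠ X →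
    ∃ e, (src e ∈ Z ∧ dst e ∈ X \ Z) ∨ (dst e ∈ Z ∧ src e ∈ X \ Z)

/-- Some edge has one end in `X` and the other end in `Y`. -/
def Joined (src dst : E → V) (X Y : Finset V) : Prop :=
  ∃ e, (src e ∈ X ∧ dst e ∈ Y) ∨ (dst e ∈ X ∧ src e ∈ Y)

/-- The graph has a minor isomorphic to the tree `D` with 126 vertices: the vertices of `D` are the
pairs `(s, w)` of a side `s` and a word `w` in two letters with at most five letters; the two empty
words are adjacent, and `(s, w)` is adjacent to `(s, b :: w)`.  The branch sets `B s w` are nonempty,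
connected and pairwise disjoint, and branch sets of adjacent vertices of `D` are joined by edges. -/
def HasBinaryTreeMinor [DecidableEq V] (src dst : E → V) : Prop :=
  ∃ B : Bool → List Bool → Finset V,
    (∀ s w, w.length ≤ 5 → Connected src dst (B s w)) ∧
    (∀ s w s' w', w.length ≤ 5 → w'.length ≤ 5 → (s, w) ≠ (s', w') →
      Disjoint (B s w) (B s' w')) ∧
    Joined src dst (B false []) (B true []) ∧
    (∀ s w b, w.length ≤ 4 → Joined src dst (B s w) (B s (b :: w)))

/-- The graph has a minor isomorphic to the star with `64` leaves. -/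
def HasStarMinor [DecidableEq V] (src dst : E → V) : Prop :=
  ∃ (A : Finset V) (L : Fin 64 → Finset V), Connected src dst A ∧
    (∀ i, Connected src dst (L i)) ∧ (∀ i, Disjoint A (L i)) ∧
    (∀ i j, i ≠ j → Disjoint (L i) (L j)) ∧ ∀ i, Joined src dst A (L i)

theorem flowOn_tree [Fintype V] [DecidableEq V] [Fintype E] [DecidableEq E] (src dst : E → V)
    (hD : ¬ HasBinaryTreeMinor src dst)
    (hb : ∀ Y : Finset V, (boundary src dst Y).card ≠ 1) :
    Pool.Agent.TH676.Z.FlowOn src dst ∅ ∅ :=
  Pool.Agent.Q287.FL.Tree.flow_of_ClT src dst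
    (fun ⟨B, hB⟩ => hD ⟨B, hB.conn, hB.disj, hB.root, hB.child⟩)
    (fun Y _ => by rw [Finset.sdiff_empty]; exact hb Y)

theorem star_of_tree [Fintype V] [DecidableEq V] [Fintype E] [DecidableEq E] (src dst : E → V)
    (hD : HasBinaryTreeMinor src dst) : HasStarMinor src dst := by
  obtain ⟨B, h1, h2, h3, h4⟩ := hD
  obtain ⟨A, L, h⟩ := Pool.Agent.Q287.FL.Tree.star_of_model (src := src) (dst := dst) (B := B)
    ⟨h1, h2, h3, h4⟩
  exact ⟨A, L, h.connA, h.connL, h.disjA, h.disjL, h.join⟩

theorem result :
    ∀ (V E W : Type) [Fintype V] [DecidableEq V] [Fintype E] [DecidableEq E] [Fintype W]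
      [DecidableEq W] (src dst : E → V) (m : ℕ) (C : Fin m → Finset E),
      (∀ i, IsCycle src dst (C i)) →
      (∀ i, (C i \ (Finset.univ.filter (fun j => j < i)).biUnion C).card ≤ 11) →
      ∀ r : V → W, JoinedIn src dst (Finset.univ.biUnion C) r →
      (¬ HasBinaryTreeMinor (r ∘ src) (r ∘ dst) ∨ ¬ HasStarMinor (r ∘ src) (r ∘ dst)) →
      (∀ Y : Finset V, (boundary src dst Y).card ≠ 1) →
      (∃ f : E → ℤ, IsFlow src dst f ∧ ∀ e, 1 ≤ |f e| ∧ |f e| ≤ 4) ∧
      ∀ q : ℕ, 5 ≤ q → 0 < bondCharPoly src dst q := by
  intro V E W _ _ _ _ _ _ src dst m C hC hnew r hr hD hb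
  have hD' : ¬ HasBinaryTreeMinor (r ∘ src) (r ∘ dst) :=
    hD.elim id fun h h' => h (star_of_tree _ _ h')
  exact finish src dst (Pool.Agent.Helper335.Rel.relative src dst m C
    (fun i => mod5 src dst (C i) (hC i)) hnew r hr
    (flowOn_tree (r ∘ src) (r ∘ dst) hD' (Pool.Agent.Helper335.Rel.br_quot src dst r hb)))

/-- The case `m = 0`: graphs without the minor `D`. -/
theorem noTree (V E : Type) [Fintype V] [DecidableEq V] [Fintype E] [DecidableEq E]
    (src dst : E → V) (hD : ¬ HasBinaryTreeMinor src dst)
    (hb : ∀ Y : Finset V, (boundary src dst Y).card ≠ 1) :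
    ∃ f : E → ℤ, IsFlow src dst f ∧ ∀ e, 1 ≤ |f e| ∧ |f e| ≤ 4 :=
  (result V E V src dst 0 (fun _ => ∅) (fun i => i.elim0) (fun i => i.elim0) id
    (fun x y h => by rw [show x = y from h]) (Or.inl hD) hb).1

/-- Graphs without the minor `K_(1,64)`. -/
theorem noStar (V E : Type) [Fintype V] [DecidableEq V] [Fintype E] [DecidableEq E]
    (src dst : E → V) (hD : ¬ HasStarMinor src dst)
    (hb : ∀ Y : Finset V, (boundary src dst Y).card ≠ 1) :
    ∃ f : E → ℤ, IsFlow src dst f ∧ ∀ e, 1 ≤ |f e| ∧ |f e| ≤ 4 :=
  (result V E V src dst 0 (fun _ => ∅) (fun i => i.elim0) (fun i => i.elim0) id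
    (fun x y h => by rw [show x = y from h]) (Or.inr hD) hb).1

end Pool.Agent.Results.MP_974d84_co.BinaryTreeMinor
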