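import Mathlib
import Pool.Agent.TH497.PW.IntFlow
import Pool.Agent.TH362.FP.Pos
import Pool.Agent.Helper335.Rel.Main
import Pool.Agent.Q287.FL.Match

set_option autoImplicit false

/-!
# No 63 pairwise disjoint edges (MP_974d84_co)

Let `G` be a bridgeless multigraph and let `C_1, ..., C_m` be cycles, each with at most eleven edges
outside the union of the earlier ones; let `F` be the union.  If `G / F` has no 63 pairwise disjoint
edges, then `G` has a nowhere-zero 5-flow, and the characteristic polynomial of the bond matroid of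
`G` is positive at all integers `q ≥ 5`.

The case `m = 0` (`matchingNumber` below): every bridgeless multigraph with matching number at most
62 (for example, with a vertex cover of at most 62 vertices) has a nowhere-zero 5-flow.  The method
cannot give more, since Tutte's 12-cage (126 vertices) has matching number 63.

Proof.  The class is closed under contractions, so a minimal counterexample has girth at least
twelve and all degrees at least three (apart from isolated vertices; libraries `Y335/FL` and
`Y358/IN`).  By the Moore bound for irregular graphs (Alon, Hoory, Linial) every set of at most 125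
vertices of such a graph spans fewer than `3/2` edges per vertex.  The vertices at odd distance at
most five from one of two adjacent vertices contain an independent set `X` of 63 vertices.  If
`Y ⊆ X` had fewer than `|Y|` neighbours, then `Y` and its neighbours would be at most 125 vertices
spanning at least `3 |Y|` edges.  So `X` can be matched, by Hall's theorem.
-/

namespace Pool.Agent.Results.MP_974d84_co.MatchingNumber

variable {V E W : Type}

/-- The edges with exactly one end in `Y`. -/
def boundary [DecidableEq V] [Fintype E] (src dst : E → V) (Y : Finset V) : Finset E :=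
  Finset.univ.filter (fun e => ¬ (src e ∈ Y ↔ dst e ∈ Y))

/-- Kirchhoff's law. -/
def IsFlow [DecidableEq V] [Fintype E] (src dst : E → V) (f : E → ℤ) : Prop :=
  ∀ v : V, ∑ e ∈ Finset.univ.filter (fun e => src e = v), f e
    = ∑ e ∈ Finset.univ.filter (fun e => dst e = v), f e

/-- `C` is a cycle: the support of an integer flow with the values `0`, `1` and `-1`. -/
def IsCycle [DecidableEq V] [Fintype E] (src dst : E → V) (C : Finset E) : Prop :=
  ∃ z : E → ℤ, IsFlow src dst z ∧ (∀ e, z e = 0 ∨ z e = 1 ∨ z e = -1) ∧ ∀ e, z e ≠ 0 ↔ e ∈ C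

/-- The map `r` identifies only vertices which are joined by a path with edges in `F`; if `r` is
the map to the components of the graph `(V, F)` then `r ∘ src`, `r ∘ dst` is the graph `G / F` (with
the edges in `F` as loops). -/
def JoinedIn (src dst : E → V) (F : Finset E) (r : V → W) : Prop :=
  ∀ x y, r x = r y → (SimpleGraph.fromRel
    (fun u v : V => ∃ e ∈ F, src e = u ∧ dst e = v)).Reachable x y

/-- The number of the connected components of the graph with the vertices `V` and the edges `A`. -/
noncomputable def components (src dst : E → V) (A : Finset E) : ℕ :=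
  Nat.card (SimpleGraph.fromRel
    (fun u v : V => ∃ e ∈ A, src e = u ∧ dst e = v)).ConnectedComponent

/-- The rank of `A` in the cycle matroid of the graph. -/
noncomputable def cycleRank [Fintype V] (src dst : E → V) (A : Finset E) : ℕ :=
  Fintype.card V - components src dst A

/-- The rank of `A` in the bond matroid of the graph, the dual of the cycle matroid:
`|A| + r(E \ A) - r(E)`. -/
noncomputable def bondRank [Fintype V] [Fintype E] [DecidableEq E] (src dst : E → V)
    (A : Finset E) : ℕ :=
  A.card + cycleRank src dst Aᶜ - cycleRank src dst Finset.univ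

/-- The characteristic polynomial of the bond matroid at the integer `x`,
`∑ (-1)^|A| x^(r*(E) - r*(A))`. -/
noncomputable def bondCharPoly [Fintype V] [Fintype E] [DecidableEq E] (src dst : E → V)
    (x : ℤ) : ℤ :=
  ∑ A : Finset E, (-1) ^ A.card * x ^ (bondRank src dst Finset.univ - bondRank src dst A)

theorem isFlow_iff [DecidableEq V] [Fintype E] (src dst : E → V) (f : E → ℤ) :
    IsFlow src dst f ↔
      ∀ v, ∑ e, f e * ((if src e = v then 1 else 0) - (if dst e = v then 1 else 0)) = 0 := by
  unfold IsFlow
  refine forall_congr' fun v => ?_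
  rw [Finset.sum_filter, Finset.sum_filter, ← sub_eq_zero, ← Finset.sum_sub_distrib]
  have : ∀ e, (if src e = v then f e else 0) - (if dst e = v then f e else 0)
      = f e * ((if src e = v then 1 else 0) - (if dst e = v then 1 else 0)) := by
    intro e
    by_cases h1 : src e = v <;> by_cases h2 : dst e = v <;> simp [h1, h2]
  rw [Finset.sum_congr rfl (fun e _ => this e)]

theorem nzf [Fintype V] [DecidableEq V] [Fintype E] [DecidableEq E] (src dst : E → V)
    (h : Pool.Agent.TH676.Z.FlowOn src dst ∅ ∅) : Pool.Agent.TH497.PW.NZF src dst := by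
  obtain ⟨f, h1, _, h3⟩ := h
  refine ⟨f, fun e => h3 e (Finset.notMem_empty _) (Finset.notMem_empty _), fun x => ?_⟩
  rw [← h1 x]
  unfold Pool.Agent.TH676.Z.bd
  refine Finset.sum_congr rfl fun e _ => ?_
  unfold Pool.Agent.TH497.PW.ic
  by_cases h4 : src e = x <;> by_cases h5 : dst e = x <;> simp [h4, h5]

/-- the reduction modulo five of a flow with values in `{0, 1, -1}` -/
theorem mod5 [Fintype V] [DecidableEq V] [Fintype E] [DecidableEq E] (src dst : E → V)
    (C : Finset E) (h : IsCycle src dst C) :
    ∃ z : E → ZMod 5, (∀ v, Pool.Agent.TH676.Z.bd src dst z v = 0) ∧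
      (∀ e, z e = 0 ∨ z e = 1 ∨ z e = -1) ∧ ∀ e, z e ≠ 0 ↔ e ∈ C := by
  obtain ⟨z, h1, h2, h3⟩ := h
  refine ⟨fun e => ((z e : ℤ) : ZMod 5), fun v => ?_, fun e => ?_, fun e => ?_⟩
  · have h4 := h1 v
    rw [Finset.sum_filter, Finset.sum_filter, ← sub_eq_zero, ← Finset.sum_sub_distrib] at h4
    have h5 := congrArg (fun t : ℤ => (t : ZMod 5)) h4
    simp only [Int.cast_sum, Int.cast_sub, Int.cast_zero] at h5
    refine Eq.trans ?_ h5
    unfold Pool.Agent.TH676.Z.bd
    rw [Finset.sum_sub_distrib, Finset.sum_sub_distrib]
    congr 1 <;>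
    · refine Finset.sum_congr rfl fun e _ => ?_
      split_ifs <;> simp
  · rcases h2 e with h | h | h <;> simp [h]
  · rw [← h3 e]
    have h10 : (1 : ZMod 5) ≠ 0 := by decide
    rcases h2 e with h | h | h <;> simp [h, h10]

theorem finish [Fintype V] [DecidableEq V] [Fintype E] [DecidableEq E] (src dst : E → V)
    (h : Pool.Agent.TH676.Z.FlowOn src dst ∅ ∅) :
    (∃ f : E → ℤ, IsFlow src dst f ∧ ∀ e, 1 ≤ |f e| ∧ |f e| ≤ 4) ∧
      ∀ q : ℕ, 5 ≤ q → 0 < bondCharPoly src dst q := by
  obtain ⟨F, hF, hF0⟩ := Pool.Agent.TH497.PW.int_flow src dst (nzf src dst h)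
  have hF1 := (isFlow_iff src dst F).mpr hF0
  exact ⟨⟨F, hF1, hF⟩, fun q hq => Pool.Agent.TH362.FP.chr_pos src dst F hF hF1 q hq⟩

/-- The edges of `M` are not loops, and no two of them have a common end. -/
def IsMatching (src dst : E → V) (M : Finset E) : Prop :=
  (∀ e ∈ M, src e ≠ dst e) ∧ ∀ e ∈ M, ∀ e' ∈ M, e ≠ e' → ∀ v, (src e = v ∨ dst e = v) →
    ¬ (src e' = v ∨ dst e' = v)

theorem flowOn_matching [Fintype V] [DecidableEq V] [Fintype E] [DecidableEq E] (src dst : E → V)
    (hM : ∀ M : Finset E, IsMatching src dst M → M.card ≤ 62)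
    (hb : ∀ Y : Finset V, (boundary src dst Y).card ≠ 1) :
    Pool.Agent.TH676.Z.FlowOn src dst ∅ ∅ := by
  refine Pool.Agent.Q287.FL.flow_of_ClM src dst (fun M h => hM M ⟨h.1, ?_⟩)
    (fun Y _ => by rw [Finset.sdiff_empty]; exact hb Y)
  intro e he e' he' hne v hv hv'
  obtain ⟨a, b, c, d⟩ := h.2 e he e' he' hne
  rcases hv with h1 | h1 <;> rcases hv' with h2 | h2
  · exact a (h1.trans h2.symm)
  · exact b (h1.trans h2.symm)
  · exact c (h1.trans h2.symm)
  · exact d (h1.trans h2.symm)

theorem result :
    ∀ (V E W : Type) [Fintype V] [DecidableEq V] [Fintype E] [DecidableEq E] [Fintype W]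
      [DecidableEq W] (src dst : E → V) (m : ℕ) (C : Fin m → Finset E),
      (∀ i, IsCycle src dst (C i)) →
      (∀ i, (C i \ (Finset.univ.filter (fun j => j < i)).biUnion C).card ≤ 11) →
      ∀ r : V → W, JoinedIn src dst (Finset.univ.biUnion C) r →
      (∀ M : Finset E, IsMatching (r ∘ src) (r ∘ dst) M → M.card ≤ 62) →
      (∀ Y : Finset V, (boundary src dst Y).card ≠ 1) →
      (∃ f : E → ℤ, IsFlow src dst f ∧ ∀ e, 1 ≤ |f e| ∧ |f e| ≤ 4) ∧
      ∀ q : ℕ, 5 ≤ q → 0 < bondCharPoly src dst q := by
  intro V E W _ _ _ _ _ _ src dst m C hC hnew r hr hM hb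
  exact finish src dst (Pool.Agent.Helper335.Rel.relative src dst m C
    (fun i => mod5 src dst (C i) (hC i)) hnew r hr
    (flowOn_matching (r ∘ src) (r ∘ dst) hM (Pool.Agent.Helper335.Rel.br_quot src dst r hb)))

/-- The case of no cycles: matching number at most 62. -/
theorem matchingNumber (V E : Type) [Fintype V] [DecidableEq V] [Fintype E] [DecidableEq E]
    (src dst : E → V) (hM : ∀ M : Finset E, IsMatching src dst M → M.card ≤ 62)
    (hb : ∀ Y : Finset V, (boundary src dst Y).card ≠ 1) :
    ∃ f : E → ℤ, IsFlow src dst f ∧ ∀ e, 1 ≤ |f e| ∧ |f e| ≤ 4 :=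
  (result V E V src dst 0 (fun _ => ∅) (fun i => i.elim0) (fun i => i.elim0) id
    (fun x y h => by rw [show x = y from h]) hM hb).1

end Pool.Agent.Results.MP_974d84_co.MatchingNumber
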