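import Mathlib
import Pool.Agent.TH497.PW.IntFlow
import Pool.Agent.TH362.FP.Pos
import Pool.Agent.Helper335.Rel.Main
import Pool.Agent.Q287.FL.Odd

set_option autoImplicit false

/-!
# At most 125 vertices of odd degree (MP_974d84_co)

Let `G` be a bridgeless multigraph and let `C_1, ..., C_m` be cycles, each with at most eleven edges
outside the union of the earlier ones; let `F` be the union.  If at most 125 vertices of `G / F`
have odd degree, then `G` has a nowhere-zero 5-flow, and the characteristic polynomial of the bond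
matroid of `G` is positive at all integers `q ≥ 5`.

The case `m = 0` (`fewOdd` below): every bridgeless multigraph with at most 125 vertices of odd
degree, and any number of vertices of even degree, has a nowhere-zero 5-flow.

Proof.  A counterexample to the case `m = 0` with as few edges as possible is cubic (apart from
isolated vertices), since pairs of edges at a vertex of degree at least four can be split off
(library `TH362/FF`), and it has girth at least twelve, since circuits with at most eleven edges
are contractible for nowhere-zero `Z_5`-flows (library `Y335/FL`).  So it has at least 126 vertices,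
and all of them have odd degree.  A flow of `G / F` is lifted to `G` as in `Helper335/Rel`.
-/

namespace Pool.Agent.Results.MP_974d84_co.OddVertices

variable {V E W : Type}

/-- The edges with exactly one end in `Y`. -/
def boundary [DecidableEq V] [Fintype E] (src dst : E → V) (Y : Finset V) : Finset E :=
  Finset.univ.filter (fun e => ¬ (src e ∈ Y ↔ dst e ∈ Y))

/-- Kirchhoff's law. -/
def IsFlow [DecidableEq V] [Fintype E] (src dst : E → V) (f : E → ℤ) : Prop :=
  ∀ v : V, ∑ e ∈ Finset.univ.filter (fun e => src e = v), f e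
    = ∑ e ∈ Finset.univ.filter (fun e => dst e = v), f e

/-- `C` is a cycle: the support of an integer flow with the values `0`, `1` and `-1`. -/
def IsCycle [DecidableEq V] [Fintype E] (src dst : E → V) (C : Finset E) : Prop :=
  ∃ z : E → ℤ, IsFlow src dst z ∧ (∀ e, z e = 0 ∨ z e = 1 ∨ z e = -1) ∧ ∀ e, z e ≠ 0 ↔ e ∈ C

/-- The map `r` identifies only vertices which are joined by a path with edges in `F`; if `r` is
the map to the components of the graph `(V, F)` then `r ∘ src`, `r ∘ dst` is the graph `G / F` (with
the edges in `F` as loops). -/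
def JoinedIn (src dst : E → V) (F : Finset E) (r : V → W) : Prop :=
  ∀ x y, r x = r y → (SimpleGraph.fromRel
    (fun u v : V => ∃ e ∈ F, src e = u ∧ dst e = v)).Reachable x y

/-- The number of the connected components of the graph with the vertices `V` and the edges `A`. -/
noncomputable def components (src dst : E → V) (A : Finset E) : ℕ :=
  Nat.card (SimpleGraph.fromRel
    (fun u v : V => ∃ e ∈ A, src e = u ∧ dst e = v)).ConnectedComponent

/-- The rank of `A` in the cycle matroid of the graph. -/
noncomputable def cycleRank [Fintype V] (src dst : E → V) (A : Finset E) : ℕ :=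
  Fintype.card V - components src dst A

/-- The rank of `A` in the bond matroid of the graph, the dual of the cycle matroid:
`|A| + r(E \ A) - r(E)`. -/
noncomputable def bondRank [Fintype V] [Fintype E] [DecidableEq E] (src dst : E → V)
    (A : Finset E) : ℕ :=
  A.card + cycleRank src dst Aᶜ - cycleRank src dst Finset.univ

/-- The characteristic polynomial of the bond matroid at the integer `x`,
`∑ (-1)^|A| x^(r*(E) - r*(A))`. -/
noncomputable def bondCharPoly [Fintype V] [Fintype E] [DecidableEq E] (src dst : E → V)
    (x : ℤ) : ℤ :=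
  ∑ A : Finset E, (-1) ^ A.card * x ^ (bondRank src dst Finset.univ - bondRank src dst A)

theorem isFlow_iff [DecidableEq V] [Fintype E] (src dst : E → V) (f : E → ℤ) :
    IsFlow src dst f ↔
      ∀ v, ∑ e, f e * ((if src e = v then 1 else 0) - (if dst e = v then 1 else 0)) = 0 := by
  unfold IsFlow
  refine forall_congr' fun v => ?_
  rw [Finset.sum_filter, Finset.sum_filter, ← sub_eq_zero, ← Finset.sum_sub_distrib]
  have : ∀ e, (if src e = v then f e else 0) - (if dst e = v then f e else 0)
      = f e * ((if src e = v then 1 else 0) - (if dst e = v then 1 else 0)) := by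
    intro e
    by_cases h1 : src e = v <;> by_cases h2 : dst e = v <;> simp [h1, h2]
  rw [Finset.sum_congr rfl (fun e _ => this e)]

theorem nzf [Fintype V] [DecidableEq V] [Fintype E] [DecidableEq E] (src dst : E → V)
    (h : Pool.Agent.TH676.Z.FlowOn src dst ∅ ∅) : Pool.Agent.TH497.PW.NZF src dst := by
  obtain ⟨f, h1, _, h3⟩ := h
  refine ⟨f, fun e => h3 e (Finset.notMem_empty _) (Finset.notMem_empty _), fun x => ?_⟩
  rw [← h1 x]
  unfold Pool.Agent.TH676.Z.bd
  refine Finset.sum_congr rfl fun e _ => ?_
  unfold Pool.Agent.TH497.PW.ic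
  by_cases h4 : src e = x <;> by_cases h5 : dst e = x <;> simp [h4, h5]

/-- the reduction modulo five of a flow with values in `{0, 1, -1}` -/
theorem mod5 [Fintype V] [DecidableEq V] [Fintype E] [DecidableEq E] (src dst : E → V)
    (C : Finset E) (h : IsCycle src dst C) :
    ∃ z : E → ZMod 5, (∀ v, Pool.Agent.TH676.Z.bd src dst z v = 0) ∧
      (∀ e, z e = 0 ∨ z e = 1 ∨ z e = -1) ∧ ∀ e, z e ≠ 0 ↔ e ∈ C := by
  obtain ⟨z, h1, h2, h3⟩ := h
  refine ⟨fun e => ((z e : ℤ) : ZMod 5), fun v => ?_, fun e => ?_, fun e => ?_⟩
  · have h4 := h1 v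
    rw [Finset.sum_filter, Finset.sum_filter, ← sub_eq_zero, ← Finset.sum_sub_distrib] at h4
    have h5 := congrArg (fun t : ℤ => (t : ZMod 5)) h4
    simp only [Int.cast_sum, Int.cast_sub, Int.cast_zero] at h5
    refine Eq.trans ?_ h5
    unfold Pool.Agent.TH676.Z.bd
    rw [Finset.sum_sub_distrib, Finset.sum_sub_distrib]
    congr 1 <;>
    · refine Finset.sum_congr rfl fun e _ => ?_
      split_ifs <;> simp
  · rcases h2 e with h | h | h <;> simp [h]
  · rw [← h3 e]
    have h10 : (1 : ZMod 5) ≠ 0 := by decide
    rcases h2 e with h | h | h <;> simp [h, h10]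

theorem finish [Fintype V] [DecidableEq V] [Fintype E] [DecidableEq E] (src dst : E → V)
    (h : Pool.Agent.TH676.Z.FlowOn src dst ∅ ∅) :
    (∃ f : E → ℤ, IsFlow src dst f ∧ ∀ e, 1 ≤ |f e| ∧ |f e| ≤ 4) ∧
      ∀ q : ℕ, 5 ≤ q → 0 < bondCharPoly src dst q := by
  obtain ⟨F, hF, hF0⟩ := Pool.Agent.TH497.PW.int_flow src dst (nzf src dst h)
  have hF1 := (isFlow_iff src dst F).mpr hF0
  exact ⟨⟨F, hF1, hF⟩, fun q hq => Pool.Agent.TH362.FP.chr_pos src dst F hF hF1 q hq⟩

/-- a bridgeless graph with at most 125 vertices of odd degree -/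
theorem flowOn_odd [Fintype V] [DecidableEq V] [Fintype E] [DecidableEq E] (src dst : E → V)
    (ho : (Finset.univ.filter (fun v => Odd (boundary src dst {v}).card)).card ≤ 125)
    (hb : ∀ Y : Finset V, (boundary src dst Y).card ≠ 1) :
    Pool.Agent.TH676.Z.FlowOn src dst ∅ ∅ := by
  classical
  have hcut : ∀ x : V → Bool, Pool.Agent.TH362.TF.cut src dst Finset.univ x =
      boundary src dst (Finset.univ.filter (fun v => x v = true)) := by
    intro x
    unfold Pool.Agent.TH362.TF.cut boundary
    refine Finset.filter_congr fun e _ => ?_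
    simp only [Finset.mem_filter, Finset.mem_univ, true_and]
    cases x (src e) <;> cases x (dst e) <;> simp
  have h1 : Pool.Agent.TH362.TF.N1 src dst Finset.univ := fun x => by rw [hcut]; exact hb _
  have h2 : (Pool.Agent.TH362.TF.odd src dst Finset.univ).card ≤ 125 := by
    refine (Finset.card_le_card fun v hv => ?_).trans ho
    rw [Finset.mem_filter]
    refine ⟨Finset.mem_univ _, ?_⟩
    have h3 := (Pool.Agent.TH362.TF.odd_iff_cut src dst Finset.univ v).1 hv
    rw [hcut] at h3
    have h4 : (Finset.univ.filter (fun w : V => decide (w = v) = true)) = {v} := by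
      ext w
      simp
    rw [h4] at h3
    exact Nat.odd_iff.2 h3
  obtain ⟨φ, k1, k2⟩ := Pool.Agent.Q287.FL.odd125 src dst Finset.univ h1 h2
  exact ⟨φ, fun v => k2 v, fun e he => absurd he (Finset.notMem_empty _),
    fun e _ _ => k1 e (Finset.mem_univ e)⟩

theorem result :
    ∀ (V E W : Type) [Fintype V] [DecidableEq V] [Fintype E] [DecidableEq E] [Fintype W]
      [DecidableEq W] (src dst : E → V) (m : ℕ) (C : Fin m → Finset E),
      (∀ i, IsCycle src dst (C i)) →
      (∀ i, (C i \ (Finset.univ.filter (fun j => j < i)).biUnion C).card ≤ 11) →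
      ∀ r : V → W, JoinedIn src dst (Finset.univ.biUnion C) r →
      (Finset.univ.filter
        (fun w : W => Odd (boundary (r ∘ src) (r ∘ dst) {w}).card)).card ≤ 125 →
      (∀ Y : Finset V, (boundary src dst Y).card ≠ 1) →
      (∃ f : E → ℤ, IsFlow src dst f ∧ ∀ e, 1 ≤ |f e| ∧ |f e| ≤ 4) ∧
      ∀ q : ℕ, 5 ≤ q → 0 < bondCharPoly src dst q := by
  intro V E W _ _ _ _ _ _ src dst m C hC hnew r hr ho hb
  exact finish src dst (Pool.Agent.Helper335.Rel.relative src dst m C
    (fun i => mod5 src dst (C i) (hC i)) hnew r hr
    (flowOn_odd (r ∘ src) (r ∘ dst) ho (Pool.Agent.Helper335.Rel.br_quot src dst r hb)))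

/-- The case of no cycles: at most 125 vertices of odd degree. -/
theorem fewOdd (V E : Type) [Fintype V] [DecidableEq V] [Fintype E] [DecidableEq E]
    (src dst : E → V)
    (ho : (Finset.univ.filter (fun v => Odd (boundary src dst {v}).card)).card ≤ 125)
    (hb : ∀ Y : Finset V, (boundary src dst Y).card ≠ 1) :
    ∃ f : E → ℤ, IsFlow src dst f ∧ ∀ e, 1 ≤ |f e| ∧ |f e| ≤ 4 :=
  (result V E V src dst 0 (fun _ => ∅) (fun i => i.elim0) (fun i => i.elim0) id
    (fun x y h => by rw [show x = y from h]) ho hb).1

end Pool.Agent.Results.MP_974d84_co.OddVertices
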